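import Pool.Agent.Y369.HC.M8Data

/-!
# M8: the flag complex of the 21 cells of the spine of the Poincaré sphere

`m8 : Pool.Agent.Y66.HC.PropM8`.
-/

set_option autoImplicit false

namespace Pool.Agent.Y369.HC

open Pool.Agent.W326.DU Pool.Agent.Y66.HC
open Finset (range)

variable {M : Type} [AddCommGroup M]

/-- value of a formal sum -/
def ev (f : ℕ → M) (l : List (ℕ × ℤ)) : M := (l.map fun p => p.2 • f p.1).sum

theorem ev_nil (f : ℕ → M) : ev f [] = 0 := rfl

theorem ev_cons (f : ℕ → M) (p : ℕ × ℤ) (l : List (ℕ × ℤ)) :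
    ev f (p :: l) = p.2 • f p.1 + ev f l := by simp [ev]

theorem ev_one (f : ℕ → M) (p : ℕ × ℤ) : ev f [p] = p.2 • f p.1 := by simp [ev]

theorem ev_append (f : ℕ → M) (l l' : List (ℕ × ℤ)) : ev f (l ++ l') = ev f l + ev f l' := by
  simp [ev]

theorem ev_ng (f : ℕ → M) (l : List (ℕ × ℤ)) : ev f (ng l) = - ev f l := by
  induction l with
  | nil => simp [ng, ev]
  | cons p l ih =>
    have h1 : ng (p :: l) = (p.1, -p.2) :: ng l := rfl
    rw [h1, ev_cons, ev_cons, ih]
    simp only [neg_smul]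
    abel

theorem ev_congr {f g : ℕ → M} {l : List (ℕ × ℤ)} (h : ∀ p ∈ l, f p.1 = g p.1) :
    ev f l = ev g l := by
  unfold ev
  congr 1
  exact List.map_congr_left fun p hp => by rw [h p hp]

theorem ev_flatMap (f : ℕ → M) (n : ℕ) (g : ℕ → List (ℕ × ℤ)) :
    ev f ((List.range n).flatMap g) = ∑ a : Fin n, ev f (g a) := by
  rw [← Finset.sum_range (fun a => ev f (g a))]
  induction n with
  | zero => rfl
  | succ n ih => rw [List.range_succ, List.flatMap_append, ev_append, ih, Finset.sum_range_succ]; simp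

theorem coef_cons (p : ℕ × ℤ) (l : List (ℕ × ℤ)) (k : ℕ) :
    coef (p :: l) k = (if p.1 = k then p.2 else 0) + coef l k := by
  have h1 : coef (p :: l) k = bif p.1 == k then p.2 + coef l k else coef l k := rfl
  rw [h1]
  by_cases h : p.1 = k
  · simp [h]
  · rw [if_neg h, beq_false_of_ne h, cond_false, zero_add]

theorem ev_coef (f : ℕ → M) {l : List (ℕ × ℤ)} {N : ℕ} (h : ∀ p ∈ l, p.1 < N) :
    ev f l = ∑ k ∈ range N, coef l k • f k := by
  induction l with
  | nil => simp [ev, coef]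
  | cons p l ih =>
    rw [ev_cons, ih fun q hq => h q (List.mem_cons_of_mem _ hq)]
    simp_rw [coef_cons, add_smul, Finset.sum_add_distrib, ite_smul, zero_smul]
    rw [Finset.sum_ite_eq, if_pos (Finset.mem_range.2 (h p List.mem_cons_self))]

theorem ev_cf2 (f : ℕ → M) (l : List (ℕ × ℤ)) (K : ℕ → List (ℕ × ℤ)) {N : ℕ}
    (h : ∀ p ∈ l, ∀ q ∈ K p.1, q.1 < N) :
    ev (fun j => ev f (K j)) l = ∑ k ∈ range N, cf2 l K k • f k := by
  induction l with
  | nil => simp [ev, cf2]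
  | cons p l ih =>
    have h1 : ∀ k, cf2 (p :: l) K k = p.2 * coef (K p.1) k + cf2 l K k := fun k => rfl
    rw [ev_cons, ih fun q hq => h q (List.mem_cons_of_mem _ hq),
      ev_coef f (h p List.mem_cons_self), Finset.smul_sum]
    simp_rw [h1, add_smul, Finset.sum_add_distrib, mul_smul]

/-! ### consequences of the checks -/

theorem all_rg {P : ℕ → Bool} (h : rg.all P = true) {a : ℕ} (ha : a < 21) : P a = true :=
  List.all_eq_true.1 h a (List.mem_range.2 ha)

theorem all_rn {n : ℕ} {P : ℕ → Bool} (h : (List.range n).all P = true) {a : ℕ} (ha : a < n) :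
    P a = true :=
  List.all_eq_true.1 h a (List.mem_range.2 ha)

theorem blt_f (x y : ℕ) : Nat.blt x y = false ↔ ¬ x < y := by
  rw [← Bool.not_eq_true, Nat.blt_eq]

theorem ble_f (x y : ℕ) : Nat.ble x y = false ↔ ¬ x ≤ y := by
  rw [← Bool.not_eq_true, Nat.ble_eq]

theorem blt_t {x y : ℕ} (h : Nat.blt x y = true) : x < y := by
  rwa [Nat.blt_eq] at h

theorem hA {a b : ℕ} (ha : a < 21) (hb : b < 21) :
    adb a b = adb b a ∧ (a = b → adb a b = false) ∧
      (adb a b = true → ¬ ((a < 5 ∧ b < 5) ∨ ((5 ≤ a ∧ a < 15) ∧ 5 ≤ b ∧ b < 15) ∨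
        (15 ≤ a ∧ 15 ≤ b))) := by
  have h := all_rg (all_rg chA_eq ha) hb
  simp only [Bool.and_eq_true, beq_iff_eq] at h
  obtain ⟨⟨h1, h2⟩, h3⟩ := h
  refine ⟨h1, fun hab => ?_, fun hab => ?_⟩
  · simpa [hab] using h2
  · rw [hab] at h3
    simp only [cond_true, Bool.not_eq_true', Bool.or_eq_false_iff, Bool.and_eq_false_iff,
      blt_f, ble_f] at h3
    omega

theorem hL2 {a b : ℕ} (ha : a < 21) (hb : b < 21) :
    (adb a b = true → ∃ i < 80, (L2 a b = [(i, 1)] ∧ el i = (a, b)) ∨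
      (L2 a b = [(i, -1)] ∧ el i = (b, a))) ∧
    (adb a b = false → L2 a b = []) ∧ L2 a b = ng (L2 b a) := by
  have h := all_rg (all_rg chL2_eq ha) hb
  simp only [Bool.and_eq_true, beq_iff_eq] at h
  obtain ⟨h1, h2⟩ := h
  refine ⟨fun hab => ?_, fun hab => ?_, h2⟩
  · rw [hab] at h1
    simp only [cond_true] at h1
    generalize L2 a b = l at h1
    match l, h1 with
    | [(i, s)], h1 =>
      simp only [Bool.and_eq_true, Bool.or_eq_true, beq_iff_eq, Nat.blt_eq] at h1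
      obtain ⟨h3, ⟨h4, h5⟩ | ⟨h4, h5⟩⟩ := h1
      · exact ⟨i, h3, Or.inl ⟨by rw [h4], h5⟩⟩
      · exact ⟨i, h3, Or.inr ⟨by rw [h4], h5⟩⟩
  · rw [hab] at h1
    simpa using h1

theorem hL3 {a b c : ℕ} (ha : a < 21) (hb : b < 21) (hc : c < 21)
    (h : (adb a b && adb b c && adb a c) = true) :
    (∃ j < 60, (L3 a b c = [(j, 1)] ∧ (tl j = (a, b, c) ∨ tl j = (b, c, a) ∨ tl j = (c, a, b))) ∨
      (L3 a b c = [(j, -1)] ∧ (tl j = (b, a, c) ∨ tl j = (a, c, b) ∨ tl j = (c, b, a)))) ∧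
    L3 a b c = ng (L3 b a c) ∧ L3 a b c = ng (L3 a c b) := by
  have h1 := all_rg (all_rg (all_rg chL3_eq ha) hb) hc
  rw [h] at h1
  simp only [cond_true, Bool.and_eq_true, beq_iff_eq] at h1
  obtain ⟨⟨h1, h2⟩, h3⟩ := h1
  refine ⟨?_, h2, h3⟩
  generalize L3 a b c = l at h1
  match l, h1 with
  | [(i, s)], h1 =>
    simp only [Bool.and_eq_true, Bool.or_eq_true, beq_iff_eq, Nat.blt_eq] at h1
    obtain ⟨h3, ⟨h4, h5⟩ | ⟨h4, h5⟩⟩ := h1
    · exact ⟨i, h3, Or.inl ⟨by rw [h4], or_assoc.1 h5⟩⟩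
    · exact ⟨i, h3, Or.inr ⟨by rw [h4], or_assoc.1 h5⟩⟩

theorem L3_nil {a b c : ℕ} (h : (adb a b && adb b c && adb a c) = false) : L3 a b c = [] := by
  unfold L3
  rw [h]
  rfl

theorem hE {i : ℕ} (hi : i < 80) :
    (el i).1 < 21 ∧ (el i).2 < 21 ∧ adb (el i).1 (el i).2 = true := by
  have h := all_rn chE_eq hi
  simpa [Nat.blt_eq, and_assoc] using h

theorem hT {i : ℕ} (hi : i < 60) :
    (tl i).1 < 21 ∧ (tl i).2.1 < 21 ∧ (tl i).2.2 < 21 := by
  have h := all_rn chT_eq hi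
  simpa [Nat.blt_eq, and_assoc] using h

theorem hR1 {b : ℕ} (hb : b < 21) : R1 b = rg.flatMap fun a => L2 a b := by
  have h := chR_eq
  unfold chR at h
  rw [Bool.and_eq_true] at h
  exact beq_iff_eq.1 (all_rg h.1 hb)

theorem hR2 {i : ℕ} (hi : i < 80) : R2 i = rg.flatMap fun a => L3 a (el i).1 (el i).2 := by
  have h := chR_eq
  unfold chR at h
  rw [Bool.and_eq_true] at h
  exact beq_iff_eq.1 (all_rn h.2 hi)

theorem hB : (∀ b < 21, ∀ p ∈ R1 b, p.1 < 80) ∧ (∀ i < 80, ∀ p ∈ R2 i, p.1 < 60) ∧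
    (∀ i < 80, ∀ p ∈ K0 i, p.1 < 21) ∧ ∀ j < 60, ∀ p ∈ K1 j, p.1 < 80 := by
  have h := chB_eq
  unfold chB at h
  simp only [Bool.and_eq_true] at h
  obtain ⟨⟨h1, h2⟩, h3⟩ := h
  refine ⟨fun b hb p hp => ?_, fun i hi p hp => ?_, fun i hi p hp => ?_, fun j hj p hp => ?_⟩
  · exact blt_t (List.all_eq_true.1 (all_rg h1 hb) p hp)
  · have h4 := all_rn h2 hi
    rw [Bool.and_eq_true] at h4
    exact blt_t (List.all_eq_true.1 h4.1 p hp)
  · have h4 := all_rn h2 hi
    rw [Bool.and_eq_true] at h4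
    exact blt_t (List.all_eq_true.1 h4.2 p hp)
  · exact blt_t (List.all_eq_true.1 (all_rn h3 hj) p hp)

theorem sum_delta (f : ℕ → M) {N i : ℕ} (hi : i < N) :
    ∑ k ∈ range N, (bif i == k then (1 : ℤ) else 0) • f k = f i := by
  have h1 : ∀ k, (bif i == k then (1 : ℤ) else 0) • f k = if i = k then f k else 0 := by
    intro k
    by_cases h : i = k
    · simp [h]
    · rw [if_neg h, beq_false_of_ne h, cond_false, zero_smul]
  simp_rw [h1]
  rw [Finset.sum_ite_eq, if_pos (Finset.mem_range.2 hi)]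

/-- the homotopy in degree 0 -/
theorem homot0 (x : ℕ → M) (hx : ∑ k ∈ range 21, x k = 0) {b : ℕ} (hb : b < 21) :
    ev (fun i => ev x (K0 i)) (R1 b) = x b := by
  rw [ev_cf2 x (R1 b) K0 (N := 21) fun p hp q hq => hB.2.2.1 p.1 (hB.1 b hb p hp) q hq]
  have h1 : ∀ k ∈ range 21, cf2 (R1 b) K0 k • x k =
      (bif b == k then (1 : ℤ) else 0) • x k - (bif b == 0 then (1 : ℤ) else 0) • x k := by
    intro k hk
    have h := all_rg (all_rg ch0_eq hb) (Finset.mem_range.1 hk)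
    rw [beq_iff_eq] at h
    rw [h, sub_smul]
  rw [Finset.sum_congr rfl h1, Finset.sum_sub_distrib, sum_delta x hb, ← Finset.smul_sum, hx]
  simp

/-- the homotopy in degree 1 -/
theorem homot1 (w : ℕ → M) {i : ℕ} (hi : i < 80) :
    ev (fun j => ev w (K1 j)) (R2 i) + ev (fun b => ev w (R1 b)) (K0 i) = w i := by
  rw [ev_cf2 w (R2 i) K1 (N := 80) fun p hp q hq => hB.2.2.2 p.1 (hB.2.1 i hi p hp) q hq,
    ev_cf2 w (K0 i) R1 (N := 80) fun p hp q hq => hB.1 p.1 (hB.2.2.1 i hi p hp) q hq,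
    ← Finset.sum_add_distrib, ← sum_delta w hi]
  refine Finset.sum_congr rfl fun k hk => ?_
  have h := all_rn (all_rn ch1_eq hi) (Finset.mem_range.1 hk)
  rw [beq_iff_eq] at h
  rw [← add_smul, h]

/-- the homotopy in degree 2 -/
theorem homot2 (w : ℕ → M) {j : ℕ} (hj : j < 60) :
    ev (fun i => ev w (R2 i)) (K1 j) = w j := by
  rw [ev_cf2 w (K1 j) R2 (N := 60) fun p hp q hq => hB.2.1 p.1 (hB.2.2.2 j hj p hp) q hq,
    ← sum_delta w hj]
  refine Finset.sum_congr rfl fun k hk => ?_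
  have h := all_rn (all_rn ch2_eq hj) (Finset.mem_range.1 hk)
  rw [beq_iff_eq] at h
  rw [h]

/-! ### the complex -/

/-- adjacency of the 21 cells -/
def ad (a b : Fin 21) : Prop := adb a b = true

/-- extension by zero -/
def ext (x : Fin 21 → M) (k : ℕ) : M := if h : k < 21 then x ⟨k, h⟩ else 0

theorem ext_val (x : Fin 21 → M) (a : Fin 21) : ext x a = x a := by simp [ext]

/-- coordinates of a 1-chain -/
def co2 (y : Fin 21 → Fin 21 → M) (i : ℕ) : M :=
  if h : (el i).1 < 21 ∧ (el i).2 < 21 then y ⟨(el i).1, h.1⟩ ⟨(el i).2, h.2⟩ else 0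

/-- coordinates of a 2-chain -/
def co3 (z : Fin 21 → Fin 21 → Fin 21 → M) (i : ℕ) : M :=
  if h : (tl i).1 < 21 ∧ (tl i).2.1 < 21 ∧ (tl i).2.2 < 21 then
    z ⟨(tl i).1, h.1⟩ ⟨(tl i).2.1, h.2.1⟩ ⟨(tl i).2.2, h.2.2⟩ else 0

theorem co2_of {y : Fin 21 → Fin 21 → M} {i : ℕ} {a b : Fin 21} (h : el i = (a.1, b.1)) :
    co2 y i = y a b := by
  have h1 : (el i).1 = a.1 := by rw [h]
  have h2 : (el i).2 = b.1 := by rw [h]
  unfold co2
  rw [dif_pos ⟨h1 ▸ a.2, h2 ▸ b.2⟩]
  congr 1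
  · exact Fin.ext h1
  · exact Fin.ext h2

theorem co3_of {z : Fin 21 → Fin 21 → Fin 21 → M} {i : ℕ} {a b c : Fin 21}
    (h : tl i = (a.1, b.1, c.1)) : co3 z i = z a b c := by
  have h1 : (tl i).1 = a.1 := by rw [h]
  have h2 : (tl i).2.1 = b.1 := by rw [h]
  have h3 : (tl i).2.2 = c.1 := by rw [h]
  unfold co3
  rw [dif_pos ⟨h1 ▸ a.2, h2 ▸ b.2, h3 ▸ c.2⟩]
  congr 1
  · exact Fin.ext h1
  · exact Fin.ext h2
  · exact Fin.ext h3

theorem alt2_eq {y : Fin 21 → Fin 21 → M} (hy : IsAlt2 ad Set.univ y) (a b : Fin 21) :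
    y a b = ev (co2 y) (L2 a b) := by
  obtain ⟨h1, h2, -⟩ := hL2 a.2 b.2
  rcases hab : adb a b with _ | _
  · rw [h2 hab, ev_nil]
    exact hy.2 a b fun h => by simp [ad, hab] at h
  · obtain ⟨i, -, ⟨h3, h4⟩ | ⟨h3, h4⟩⟩ := h1 hab
    · rw [h3, ev_one, co2_of h4, one_smul]
    · rw [h3, ev_one, co2_of h4, hy.1 a b]
      simp

theorem alt3_eq {z : Fin 21 → Fin 21 → Fin 21 → M} (hz : IsAlt3 ad Set.univ z) (a b c : Fin 21) :
    z a b c = ev (co3 z) (L3 a b c) := by
  rcases h : (adb a b && adb b c && adb a c) with _ | _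
  · rw [L3_nil h, ev_nil]
    refine hz.2.2 a b c fun h' => ?_
    simp only [ad] at h'
    rw [h'.2.2.2.1, h'.2.2.2.2.1, h'.2.2.2.2.2] at h
    exact absurd h (by decide)
  · have e1 := hz.1
    have e2 := hz.2.1
    have e3 : ∀ a b c, z a b c = z b c a := by
      intro a b c
      rw [e1 a b c, e2 b a c, neg_neg]
    obtain ⟨j, -, ⟨h3, h4⟩ | ⟨h3, h4⟩⟩ := (hL3 a.2 b.2 c.2 h).1
    · rw [h3, ev_one, one_smul]
      rcases h4 with h4 | h4 | h4
      · rw [co3_of h4]
      · rw [co3_of h4]; exact e3 a b c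
      · rw [co3_of h4]; exact (e3 c a b).symm
    · rw [h3, ev_one]
      simp only [neg_smul, one_smul]
      rcases h4 with h4 | h4 | h4
      · rw [co3_of h4]; exact e1 a b c
      · rw [co3_of h4]; exact e2 a b c
      · rw [co3_of h4, e3 c b a]; exact e1 a b c

theorem isAlt2 (w : ℕ → M) : IsAlt2 ad Set.univ fun a b : Fin 21 => ev w (L2 a b) := by
  refine ⟨fun a b => ?_, fun a b h => ?_⟩
  · dsimp only
    rw [(hL2 a.2 b.2).2.2, ev_ng]
  · have h1 : adb a b = false := by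
      rcases hab : adb a b with _ | _
      · rfl
      · exact absurd ⟨Set.mem_univ _, Set.mem_univ _, hab⟩ h
    dsimp only
    rw [(hL2 a.2 b.2).2.1 h1, ev_nil]

theorem isAlt3 (w : ℕ → M) : IsAlt3 ad Set.univ fun a b c : Fin 21 => ev w (L3 a b c) := by
  have hs : ∀ a b : Fin 21, adb a b = adb b a := fun a b => (hA a.2 b.2).1
  refine ⟨fun a b c => ?_, fun a b c => ?_, fun a b c h => ?_⟩
  · dsimp only
    rcases h : (adb a b && adb b c && adb a c) with _ | _
    · rw [L3_nil h, L3_nil (a := b) (b := a) (c := c), ev_nil, neg_zero]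
      rw [hs b a, Bool.and_right_comm]
      exact h
    · rw [(hL3 a.2 b.2 c.2 h).2.1, ev_ng]
  · dsimp only
    rcases h : (adb a b && adb b c && adb a c) with _ | _
    · rw [L3_nil h, L3_nil (a := a) (b := c) (c := b), ev_nil, neg_zero]
      rw [hs c b, ← h]
      generalize adb a b = p
      generalize adb b c = q
      generalize adb a c = r
      revert p q r
      decide
    · rw [(hL3 a.2 b.2 c.2 h).2.2, ev_ng]
  · dsimp only
    rcases h' : (adb a b && adb b c && adb a c) with _ | _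
    · rw [L3_nil h', ev_nil]
    · simp only [Bool.and_eq_true] at h'
      exact absurd ⟨Set.mem_univ _, Set.mem_univ _, Set.mem_univ _, h'.1.1, h'.1.2, h'.2⟩ h

theorem acyc : Acyc ad where
  ac1 := by
    intro M _ x hx
    refine ⟨fun a b => ev (fun i => ev (ext x) (K0 i)) (L2 a b), isAlt2 _, fun b => ?_⟩
    have h1 := hR1 b.2
    unfold rg at h1
    rw [← ev_flatMap (fun i => ev (ext x) (K0 i)) 21 (fun a => L2 a b), ← h1,
      homot0 (ext x) _ b.2, ext_val]
    rw [Finset.sum_range]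
    simpa [ext_val] using hx
  ac2 := by
    intro M _ y hy h0
    have h2 : ∀ b, b < 21 → ev (co2 y) (R1 b) = 0 := by
      intro b hb
      have h1 := hR1 hb
      unfold rg at h1
      rw [h1, ev_flatMap (co2 y) 21 (fun a => L2 a b)]
      rw [← h0 ⟨b, hb⟩]
      exact Finset.sum_congr rfl fun a _ => (alt2_eq hy a ⟨b, hb⟩).symm
    set w : ℕ → M := fun j => ev (co2 y) (K1 j) with hw
    have hz := isAlt3 w
    refine ⟨fun a b c => ev w (L3 a b c), hz, ?_⟩
    have key : ∀ (i : ℕ) (b c : Fin 21), i < 80 → el i = (b.1, c.1) →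
        y b c = ∑ a : Fin 21, ev w (L3 a b c) := by
      intro i b c hi h3
      have h4 := hR2 hi
      unfold rg at h4
      rw [h3] at h4
      rw [← ev_flatMap w 21 (fun a => L3 a b c), ← h4, ← co2_of (y := y) h3, ← homot1 (co2 y) hi]
      have h5 : ev (fun b => ev (co2 y) (R1 b)) (K0 i) = 0 := by
        rw [ev_congr (g := fun _ => 0) fun p hp => h2 p.1 (hB.2.2.1 i hi p hp)]
        simp [ev]
      rw [h5, add_zero]
    intro b c
    rcases hbc : adb b c with _ | _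
    · rw [hy.2 b c fun h => by simp [ad, hbc] at h]
      refine (Finset.sum_eq_zero fun a _ => ?_).symm
      dsimp only
      rw [L3_nil, ev_nil]
      rw [hbc]
      simp
    · obtain ⟨i, hi, ⟨-, h4⟩ | ⟨-, h4⟩⟩ := (hL2 b.2 c.2).1 hbc
      · exact key i b c hi h4
      · rw [hy.1 b c, key i c b hi h4, ← Finset.sum_neg_distrib]
        exact Finset.sum_congr rfl fun a _ => (hz.2.1 a b c).symm
  ac3 := by
    intro M _ z hz h0 a b c
    have h1 : ∀ j < 60, co3 z j = 0 := by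
      intro j hj
      rw [← homot2 (co3 z) hj, ev_congr (g := fun _ => 0)]
      · simp [ev]
      · intro p hp
        have hi := hB.2.2.2 j hj p hp
        have h4 := hR2 hi
        have h5 := hE hi
        unfold rg at h4
        rw [h4, ev_flatMap (co3 z) 21 (fun a => L3 a (el p.1).1 (el p.1).2)]
        rw [← h0 ⟨(el p.1).1, h5.1⟩ ⟨(el p.1).2, h5.2.1⟩]
        exact Finset.sum_congr rfl fun a _ =>
          (alt3_eq hz a ⟨(el p.1).1, h5.1⟩ ⟨(el p.1).2, h5.2.1⟩).symm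
    rw [alt3_eq hz]
    rcases h : (adb a b && adb b c && adb a c) with _ | _
    · rw [L3_nil h, ev_nil]
    · obtain ⟨j, hj, ⟨h3, -⟩ | ⟨h3, -⟩⟩ := (hL3 a.2 b.2 c.2 h).1
      · rw [h3, ev_one, h1 j hj, smul_zero]
      · rw [h3, ev_one, h1 j hj, smul_zero]

theorem pe_eq {f g : Equiv.Perm (Fin 5)} (h : pe f g = true) : f = g := by
  unfold pe at h
  simp only [Bool.and_eq_true, beq_iff_eq] at h
  obtain ⟨⟨⟨⟨h0, h1⟩, h2⟩, h3⟩, h4⟩ := h
  ext x
  fin_cases x
  · exact congrArg _ h0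
  · exact congrArg _ h1
  · exact congrArg _ h2
  · exact congrArg _ h3
  · exact congrArg _ h4

theorem conn0 (a : Fin 21) : Relation.ReflTransGen ad a 0 := by
  have h := all_rg chP_eq a.2
  simp only [Bool.and_eq_true, Bool.or_eq_true, beq_iff_eq, Nat.blt_eq] at h
  obtain ⟨⟨⟨⟨hb, hc⟩, h1⟩, h2⟩, h3⟩ := h
  generalize p1T.getD a 0 = b at hb h1 h2
  generalize p2T.getD a 0 = c at hc h2 h3
  have key : ∀ x y : Fin 21, (x.1 = y.1 ∨ adb x y = true) → Relation.ReflTransGen ad x y := by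
    intro x y hxy
    rcases hxy with h | h
    · rw [Fin.ext h]
    · exact Relation.ReflTransGen.single h
  exact ((key a ⟨b, hb⟩ h1).trans (key ⟨b, hb⟩ ⟨c, hc⟩ h2)).trans (key ⟨c, hc⟩ 0 h3)

/-- the closed path -/
def pth (i : ℕ) : Fin 21 := (![0, 5, 1, 9, 2, 6] : Fin 6 → Fin 21) (Fin.ofNat 6 i)

/-- **M8** -/
theorem m8 : PropM8 := by
  refine ⟨Fin 21, inferInstance, inferInstance, ad, fun a b => gm a b, 6, pth, ?_⟩
  have hsym : ∀ a b, ad a b → ad b a := fun a b h => by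
    unfold ad at h ⊢
    rw [← (hA a.2 b.2).1]
    exact h
  refine ⟨hsym, fun a h => ?_, ?_, acyc, ?_, ?_, ?_, ?_, ?_⟩
  · have h1 := (hA a.2 a.2).2.1 rfl
    unfold ad at h
    rw [h1] at h
    exact absurd h (by decide)
  · intro a b c d h1 h2 h3 h4 h5 h6
    have e1 := (hA a.2 b.2).2.2 h1
    have e2 := (hA a.2 c.2).2.2 h2
    have e3 := (hA a.2 d.2).2.2 h3
    have e4 := (hA b.2 c.2).2.2 h4
    have e5 := (hA b.2 d.2).2.2 h5
    have e6 := (hA c.2 d.2).2.2 h6
    omega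
  · intro a b
    refine (conn0 a).trans ?_
    have h : ∀ x y, Relation.ReflTransGen ad x y → Relation.ReflTransGen ad y x := by
      intro x y h
      induction h with
      | refl => exact Relation.ReflTransGen.refl
      | tail _ h ih => exact Relation.ReflTransGen.head (hsym _ _ h) ih
    exact h _ _ (conn0 b)
  · intro u v w h1 h2 h3
    have h := all_rg chG_eq u.2
    have h1' : (u.1 == v.1 || adb u v) = true := by
      rcases h1 with h1 | h1
      · simp [h1]
      · simp only [ad] at h1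
        simp [h1]
    have h2' : (v.1 == w.1 || adb v w) = true := by
      rcases h2 with h2 | h2
      · simp [h2]
      · simp only [ad] at h2
        simp [h2]
    have h3' : (u.1 == w.1 || adb u w) = true := by
      rcases h3 with h3 | h3
      · simp [h3]
      · simp only [ad] at h3
        simp [h3]
    have h4 := all_rg h v.2
    rw [h1'] at h4
    simp only [cond_true] at h4
    have h5 := all_rg h4 w.2
    rw [h2', h3'] at h5
    simp only [Bool.and_self, cond_true] at h5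
    exact pe_eq h5
  · decide +kernel
  · intro i hi
    have : ∀ i : Fin 6, adb (pth i) (pth (i + 1 : ℕ)) = true := by decide +kernel
    exact this ⟨i, hi⟩
  · intro h
    have h1 : ((List.range 6).map (fun i => gm (pth i) (pth (i + 1)))).prod 0 = 0 := by
      rw [h]
      rfl
    have h2 : ((List.range 6).map (fun i => gm (pth i) (pth (i + 1)))).prod 0 ≠ 0 := by
      decide +kernel
    exact h2 h1

end Pool.Agent.Y369.HC
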