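import Pool.Agent.Y66.HC.Defs

/-!
# M8: the flag complex of the 21 cells of the spine of the Poincaré sphere

Tables and kernel checks for `Pool.Agent.Y66.HC.PropM8`: the 2-complex with 1-skeleton `K₅` and six
pentagons; its 21 cells (5 vertices, 10 edges, 6 pentagons), 80 inclusions and 60 flags.
-/

set_option autoImplicit false

namespace Pool.Agent.Y369.HC

/-- a permutation given by its table and the table of its inverse -/
def mkP (f g : Fin 5 → Fin 5)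
    (h : (∀ x, g (f x) = x) ∧ ∀ x, f (g x) = x := by decide) : Equiv.Perm (Fin 5) :=
  ⟨f, g, h.1, h.2⟩

/-- codes `a + 21 b` of the 80 edges -/
def eT : List ℕ :=
  [105, 126, 147, 168, 315, 336, 357, 378, 399, 420, 106, 190, 211, 232, 316, 337, 358, 379, 400,
    421, 128, 191, 254, 275, 317, 338, 359, 380, 401, 422, 150, 213, 255, 297, 318, 339, 360,
    381, 402, 423, 172, 235, 277, 298, 319, 340, 361, 382, 403, 424, 320, 341, 362, 342, 384,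
    405, 364, 385, 427, 323, 407, 428, 324, 387, 429, 346, 409, 430, 368, 389, 410, 327, 369,
    411, 349, 370, 433, 329, 350, 392]

/-- codes `a + 21 b + 441 c` of the 60 triangles -/
def keyT : List ℕ :=
  [6720, 7161, 7602, 7182, 8064, 8505, 7644, 8085, 8967, 6783, 8547, 8988, 6721, 7162, 7603,
    6805, 8128, 9010, 7267, 8590, 9031, 7729, 8170, 8611, 7184, 8066, 8507, 6806, 8129, 9011,
    6869, 7751, 8633, 7331, 7772, 9095, 7647, 8088, 8970, 7269, 8592, 9033, 6870, 7752, 8634,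
    6912, 7353, 8235, 6787, 8551, 8992, 7732, 8173, 8614, 7333, 7774, 9097, 6913, 7354, 8236]

/-- adjacency matrix (bit masks) -/
def rowT : List ℕ :=
  [2064864, 2068000, 2077248, 2086016, 2091264, 229379, 851973, 1441801, 1605649, 1343494,
    1638410, 917522, 688140, 1245204, 360472, 21311, 25727, 14527, 19167, 7519, 10143]

/-- `1 +` the index of an edge -/
def ixT : List (List ℕ) :=
  [[0, 0, 0, 0, 0, 1, 2, 3, 4, 0, 0, 0, 0, 0, 0, 5, 6, 7, 8, 9, 10],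
   [0, 0, 0, 0, 0, 11, 0, 0, 0, 12, 13, 14, 0, 0, 0, 15, 16, 17, 18, 19, 20],
   [0, 0, 0, 0, 0, 0, 21, 0, 0, 22, 0, 0, 23, 24, 0, 25, 26, 27, 28, 29, 30],
   [0, 0, 0, 0, 0, 0, 0, 31, 0, 0, 32, 0, 33, 0, 34, 35, 36, 37, 38, 39, 40],
   [0, 0, 0, 0, 0, 0, 0, 0, 41, 0, 0, 42, 0, 43, 44, 45, 46, 47, 48, 49, 50],
   [1, 11, 0, 0, 0, 0, 0, 0, 0, 0, 0, 0, 0, 0, 0, 51, 52, 53, 0, 0, 0],
   [2, 0, 21, 0, 0, 0, 0, 0, 0, 0, 0, 0, 0, 0, 0, 0, 54, 0, 55, 56, 0],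
   [3, 0, 0, 31, 0, 0, 0, 0, 0, 0, 0, 0, 0, 0, 0, 0, 0, 57, 58, 0, 59],
   [4, 0, 0, 0, 41, 0, 0, 0, 0, 0, 0, 0, 0, 0, 0, 60, 0, 0, 0, 61, 62],
   [0, 12, 22, 0, 0, 0, 0, 0, 0, 0, 0, 0, 0, 0, 0, 63, 0, 0, 64, 0, 65],
   [0, 13, 0, 32, 0, 0, 0, 0, 0, 0, 0, 0, 0, 0, 0, 0, 66, 0, 0, 67, 68],
   [0, 14, 0, 0, 42, 0, 0, 0, 0, 0, 0, 0, 0, 0, 0, 0, 0, 69, 70, 71, 0],
   [0, 0, 23, 33, 0, 0, 0, 0, 0, 0, 0, 0, 0, 0, 0, 72, 0, 73, 0, 74, 0],
   [0, 0, 24, 0, 43, 0, 0, 0, 0, 0, 0, 0, 0, 0, 0, 0, 75, 76, 0, 0, 77],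
   [0, 0, 0, 34, 44, 0, 0, 0, 0, 0, 0, 0, 0, 0, 0, 78, 79, 0, 80, 0, 0],
   [5, 15, 25, 35, 45, 51, 0, 0, 60, 63, 0, 0, 72, 0, 78, 0, 0, 0, 0, 0, 0],
   [6, 16, 26, 36, 46, 52, 54, 0, 0, 0, 66, 0, 0, 75, 79, 0, 0, 0, 0, 0, 0],
   [7, 17, 27, 37, 47, 53, 0, 57, 0, 0, 0, 69, 73, 76, 0, 0, 0, 0, 0, 0, 0],
   [8, 18, 28, 38, 48, 0, 55, 58, 0, 64, 0, 70, 0, 0, 80, 0, 0, 0, 0, 0, 0],
   [9, 19, 29, 39, 49, 0, 56, 0, 61, 0, 67, 71, 74, 0, 0, 0, 0, 0, 0, 0, 0],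
   [10, 20, 30, 40, 50, 0, 0, 59, 62, 65, 68, 0, 0, 77, 0, 0, 0, 0, 0, 0, 0]]

/-- edges at a vertex (`2 i + 1` stands for `- i`) -/
def r1T : List (List ℕ) :=
  [[1, 3, 5, 7, 9, 11, 13, 15, 17, 19],
   [21, 23, 25, 27, 29, 31, 33, 35, 37, 39],
   [41, 43, 45, 47, 49, 51, 53, 55, 57, 59],
   [61, 63, 65, 67, 69, 71, 73, 75, 77, 79],
   [81, 83, 85, 87, 89, 91, 93, 95, 97, 99],
   [0, 20, 101, 103, 105],
   [2, 40, 107, 109, 111],
   [4, 60, 113, 115, 117],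
   [6, 80, 119, 121, 123],
   [22, 42, 125, 127, 129],
   [24, 62, 131, 133, 135],
   [26, 82, 137, 139, 141],
   [44, 64, 143, 145, 147],
   [46, 84, 149, 151, 153],
   [66, 86, 155, 157, 159],
   [8, 28, 48, 68, 88, 100, 118, 124, 142, 154],
   [10, 30, 50, 70, 90, 102, 106, 130, 148, 156],
   [12, 32, 52, 72, 92, 104, 112, 136, 144, 150],
   [14, 34, 54, 74, 94, 108, 114, 126, 138, 158],
   [16, 36, 56, 76, 96, 110, 120, 132, 140, 146],
   [18, 38, 58, 78, 98, 116, 122, 128, 134, 152]]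

/-- triangles at an edge -/
def r2T : List (List ℕ) :=
  [[0, 2, 4],
   [6, 8, 10],
   [12, 14, 16],
   [18, 20, 22],
   [1, 19],
   [3, 7],
   [5, 13],
   [9, 15],
   [11, 21],
   [17, 23],
   [24, 26, 28],
   [30, 32, 34],
   [36, 38, 40],
   [42, 44, 46],
   [25, 31],
   [27, 37],
   [29, 43],
   [33, 45],
   [39, 47],
   [35, 41],
   [48, 50, 52],
   [54, 56, 58],
   [60, 62, 64],
   [66, 68, 70],
   [55, 61],
   [49, 67],
   [63, 69],
   [51, 57],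
   [53, 65],
   [59, 71],
   [72, 74, 76],
   [78, 80, 82],
   [84, 86, 88],
   [90, 92, 94],
   [85, 91],
   [79, 93],
   [73, 87],
   [75, 95],
   [81, 89],
   [77, 83],
   [96, 98, 100],
   [102, 104, 106],
   [108, 110, 112],
   [114, 116, 118],
   [97, 115],
   [109, 117],
   [103, 111],
   [105, 119],
   [99, 107],
   [101, 113],
   [0, 24],
   [2, 26],
   [4, 28],
   [6, 48],
   [8, 50],
   [10, 52],
   [12, 72],
   [14, 74],
   [16, 76],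
   [18, 96],
   [20, 98],
   [22, 100],
   [30, 54],
   [32, 56],
   [34, 58],
   [36, 78],
   [38, 80],
   [40, 82],
   [42, 102],
   [44, 104],
   [46, 106],
   [60, 84],
   [62, 86],
   [64, 88],
   [66, 108],
   [68, 110],
   [70, 112],
   [90, 114],
   [92, 116],
   [94, 118]]

/-- contraction, degree 0 -/
def k0T : List (List ℕ) :=
  [[2, 10],
   [4, 12],
   [6, 14],
   [8, 16],
   [18, 24, 28, 30],
   [20, 26, 32],
   [22, 34],
   [36],
   [38],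
   [40],
   [3],
   [],
   [],
   [],
   [],
   [],
   [],
   [],
   [],
   [],
   [5],
   [],
   [],
   [],
   [],
   [],
   [],
   [],
   [],
   [],
   [7],
   [],
   [],
   [],
   [],
   [],
   [],
   [],
   [],
   [],
   [9],
   [],
   [],
   [],
   [],
   [],
   [],
   [],
   [],
   [],
   [],
   [],
   [],
   [],
   [],
   [],
   [],
   [],
   [],
   [],
   [],
   [],
   [19],
   [],
   [],
   [21],
   [],
   [],
   [23],
   [],
   [],
   [25],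
   [],
   [],
   [27],
   [],
   [],
   [29],
   [],
   []]

/-- contraction, degree 1 -/
def k1T : List (List ℕ) :=
  [[22, 28, 38, 42, 44, 48, 52, 58, 63, 71, 77, 85, 91, 100, 127, 134, 147, 150, 152, 157],
   [24, 30, 36, 53, 62, 64, 66, 68, 70, 76, 83, 93, 95, 102, 135, 140, 145, 151, 159],
   [26, 32, 34, 43, 45, 49, 59, 65, 67, 69, 82, 84, 90, 92, 94, 104, 126, 141, 144, 146, 153,
    156, 158],
   [37, 46, 50, 52, 65, 67, 69, 77, 82, 84, 90, 92, 94, 106, 133, 141, 144, 153, 156, 158],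
   [34, 36, 38, 54, 58, 63, 71, 83, 85, 91, 93, 108, 126, 128, 132, 134, 138, 140, 152, 157],
   [35, 39, 42, 44, 48, 56, 62, 64, 66, 68, 70, 76, 95, 110, 127, 129, 135, 139, 145, 159],
   [35, 42, 44, 48, 52, 58, 64, 66, 68, 72, 85, 91, 95, 112, 127, 139, 147, 150, 152, 157, 159],
   [37, 39, 59, 62, 70, 74, 82, 84, 90, 92, 94, 114, 129, 133, 135, 141, 153, 156, 158],
   [34, 36, 38, 43, 45, 49, 53, 76, 78, 83, 93, 116, 126, 128, 132, 134, 138, 140, 146, 151],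
   [39, 53, 59, 62, 64, 66, 68, 70, 76, 84, 86, 88, 90, 118, 129, 135, 145, 151, 153, 159],
   [34, 36, 38, 43, 45, 49, 63, 65, 67, 69, 71, 94, 96, 120, 126, 128, 132, 134, 138, 140, 144,
    146, 158],
   [35, 37, 42, 44, 48, 52, 58, 77, 82, 92, 98, 122, 127, 133, 139, 141, 147, 150, 152],
   [23, 29, 39, 43, 45, 49, 53, 59, 62, 70, 76, 84, 90, 126, 135, 146, 151, 153, 156],
   [25, 31, 37, 52, 63, 65, 67, 69, 71, 77, 82, 92, 94, 134, 141, 144, 150, 158],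
   [27, 33, 35, 42, 44, 48, 58, 64, 66, 68, 83, 85, 91, 93, 95, 127, 140, 145, 147, 152, 157,
    159],
   [22, 38, 42, 44, 48, 52, 58, 63, 71, 77, 85, 91, 127, 134, 147, 150, 152, 157],
   [35, 37, 39, 59, 62, 70, 82, 84, 90, 92, 129, 133, 135, 139, 141, 153, 156],
   [34, 36, 43, 45, 49, 53, 76, 83, 93, 126, 128, 132, 138, 140, 146, 151],
   [24, 36, 53, 62, 64, 66, 68, 70, 76, 83, 93, 95, 135, 140, 145, 151, 159],
   [34, 38, 43, 45, 49, 63, 65, 67, 69, 71, 94, 126, 128, 132, 134, 138, 144, 146, 158],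
   [35, 37, 39, 42, 44, 48, 52, 77, 82, 92, 127, 129, 133, 139, 141, 147, 150],
   [26, 34, 43, 45, 49, 59, 65, 67, 69, 82, 84, 90, 92, 94, 126, 141, 144, 146, 153, 156, 158],
   [36, 38, 58, 63, 71, 83, 85, 91, 93, 128, 132, 134, 138, 140, 152, 157],
   [35, 37, 39, 42, 44, 48, 62, 64, 66, 68, 70, 95, 127, 129, 133, 135, 139, 145, 147, 159],
   [36, 47, 51, 53, 64, 66, 68, 76, 83, 85, 91, 93, 95, 132, 140, 145, 152, 157, 159],
   [35, 37, 39, 55, 59, 62, 70, 82, 84, 90, 92, 127, 129, 133, 135, 139, 141, 153, 156],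
   [34, 38, 43, 45, 49, 57, 63, 65, 67, 69, 71, 77, 94, 126, 128, 134, 138, 144, 158],
   [39, 45, 49, 53, 59, 62, 70, 76, 84, 90, 129, 135, 146, 151, 153, 156],
   [34, 36, 38, 58, 63, 71, 83, 85, 91, 93, 126, 128, 132, 134, 138, 140, 152, 157],
   [35, 37, 42, 44, 48, 52, 77, 82, 92, 127, 133, 139, 141, 147, 150],
   [38, 44, 52, 58, 63, 71, 77, 85, 91, 128, 134, 147, 150, 152, 157],
   [34, 43, 45, 49, 53, 59, 65, 67, 69, 84, 90, 94, 126, 138, 144, 146, 151, 153, 156, 158],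
   [35, 39, 42, 44, 48, 62, 64, 66, 68, 70, 76, 95, 127, 129, 135, 139, 145, 159],
   [37, 46, 52, 65, 67, 69, 77, 82, 84, 90, 92, 94, 133, 141, 144, 153, 156, 158],
   [35, 42, 44, 48, 58, 64, 66, 68, 85, 91, 95, 127, 139, 145, 147, 150, 152, 157, 159],
   [34, 36, 43, 45, 49, 53, 59, 76, 83, 93, 126, 132, 138, 140, 146, 151],
   [34, 43, 45, 49, 53, 59, 65, 67, 69, 73, 84, 90, 94, 126, 138, 146, 151, 153, 156, 158],
   [36, 38, 58, 63, 71, 75, 83, 85, 91, 93, 95, 128, 132, 134, 140, 152, 157, 159],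
   [35, 37, 39, 42, 44, 48, 52, 77, 79, 82, 92, 127, 129, 133, 135, 139, 141, 147, 150],
   [37, 52, 65, 67, 69, 71, 77, 82, 92, 94, 133, 141, 144, 150, 158],
   [35, 39, 42, 44, 48, 62, 64, 66, 68, 70, 95, 127, 129, 135, 139, 145, 147, 159],
   [34, 36, 38, 43, 45, 49, 53, 76, 83, 93, 126, 128, 132, 134, 138, 140, 146, 151],
   [39, 53, 59, 62, 64, 70, 76, 84, 90, 129, 135, 145, 151, 153, 156],
   [35, 42, 44, 48, 52, 58, 64, 66, 68, 85, 91, 95, 127, 139, 147, 150, 152, 157, 159],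
   [34, 38, 43, 45, 49, 63, 65, 67, 69, 71, 77, 94, 126, 128, 134, 138, 144, 146, 158],
   [38, 52, 58, 63, 65, 69, 71, 77, 85, 91, 128, 134, 144, 150, 152, 157],
   [36, 53, 64, 66, 68, 76, 83, 93, 95, 132, 140, 145, 151, 159],
   [37, 39, 59, 62, 70, 82, 84, 90, 92, 94, 129, 133, 135, 141, 153, 156, 158],
   [38, 52, 58, 63, 65, 67, 69, 71, 77, 85, 87, 89, 91, 128, 134, 144, 150, 152, 158],
   [35, 37, 39, 42, 44, 48, 62, 64, 66, 68, 70, 95, 97, 127, 129, 133, 135, 139, 141, 145, 147,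
    159],
   [34, 36, 43, 45, 49, 53, 59, 76, 83, 93, 99, 126, 132, 138, 140, 146, 151, 153],
   [35, 42, 44, 48, 58, 64, 66, 68, 85, 91, 93, 95, 127, 139, 145, 147, 152, 157, 159],
   [37, 39, 59, 62, 70, 82, 84, 90, 92, 129, 133, 135, 141, 153, 156],
   [34, 36, 38, 43, 45, 49, 63, 65, 67, 69, 71, 94, 126, 128, 132, 134, 138, 140, 144, 146, 158],
   [36, 53, 64, 66, 68, 76, 83, 91, 93, 95, 132, 140, 145, 151, 157, 159],
   [34, 43, 45, 49, 59, 65, 67, 69, 84, 90, 94, 126, 138, 144, 146, 153, 156, 158],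
   [35, 37, 42, 44, 48, 52, 58, 77, 82, 92, 127, 133, 139, 141, 147, 150, 152],
   [39, 53, 59, 62, 64, 66, 68, 70, 76, 84, 86, 90, 129, 135, 145, 151, 153, 159],
   [37, 52, 65, 67, 69, 77, 82, 92, 94, 133, 141, 144, 150, 156, 158],
   [36, 38, 58, 63, 71, 83, 85, 91, 93, 95, 128, 132, 134, 140, 152, 157]]

/-- paths to the vertex 0 -/
def p1T : List ℕ := [0, 1, 2, 3, 4, 0, 0, 0, 0, 1, 1, 1, 2, 2, 3, 0, 0, 0, 0, 0, 0]

/-- paths to the vertex 0 -/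
def p2T : List ℕ := [0, 5, 6, 7, 8, 0, 0, 0, 0, 5, 5, 5, 6, 6, 7, 0, 0, 0, 0, 0, 0]

/-- indices of the values of the cocycle -/
def gT : List (List ℕ) :=
  [[0, 0, 0, 0, 0, 0, 0, 0, 0, 0, 0, 0, 0, 0, 0, 0, 0, 0, 0, 0, 0],
   [0, 0, 0, 0, 0, 0, 0, 0, 0, 0, 0, 0, 0, 0, 0, 0, 0, 0, 1, 2, 3],
   [0, 0, 0, 0, 0, 0, 0, 0, 0, 4, 0, 0, 0, 0, 0, 4, 0, 5, 0, 0, 6],
   [0, 0, 0, 0, 0, 0, 0, 0, 0, 0, 7, 0, 8, 0, 0, 9, 7, 0, 0, 8, 0],
   [0, 0, 0, 0, 0, 0, 0, 0, 0, 0, 0, 10, 0, 11, 12, 0, 11, 10, 12, 0, 0],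
   [0, 0, 0, 0, 0, 0, 0, 0, 0, 0, 0, 0, 0, 0, 0, 0, 0, 0, 0, 0, 0],
   [0, 0, 0, 0, 0, 0, 0, 0, 0, 0, 0, 0, 0, 0, 0, 0, 0, 0, 0, 0, 0],
   [0, 0, 0, 0, 0, 0, 0, 0, 0, 0, 0, 0, 0, 0, 0, 0, 0, 0, 0, 0, 0],
   [0, 0, 0, 0, 0, 0, 0, 0, 0, 0, 0, 0, 0, 0, 0, 0, 0, 0, 0, 0, 0],
   [0, 0, 1, 0, 0, 0, 0, 0, 0, 0, 0, 0, 0, 0, 0, 0, 0, 0, 1, 0, 3],
   [0, 0, 0, 3, 0, 0, 0, 0, 0, 0, 0, 0, 0, 0, 0, 0, 0, 0, 0, 2, 3],
   [0, 0, 0, 0, 2, 0, 0, 0, 0, 0, 0, 0, 0, 0, 0, 0, 0, 0, 1, 2, 0],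
   [0, 0, 0, 5, 0, 0, 0, 0, 0, 0, 0, 0, 0, 0, 0, 4, 0, 5, 0, 0, 0],
   [0, 0, 0, 0, 6, 0, 0, 0, 0, 0, 0, 0, 0, 0, 0, 0, 0, 5, 0, 0, 6],
   [0, 0, 0, 0, 9, 0, 0, 0, 0, 0, 0, 0, 0, 0, 0, 9, 7, 0, 0, 0, 0],
   [0, 0, 1, 12, 0, 0, 0, 0, 0, 0, 0, 0, 1, 0, 12, 0, 0, 0, 0, 0, 0],
   [0, 0, 0, 3, 6, 0, 0, 0, 0, 0, 0, 0, 0, 0, 3, 0, 0, 0, 0, 0, 0],
   [0, 0, 8, 0, 2, 0, 0, 0, 0, 0, 0, 0, 8, 8, 0, 0, 0, 0, 0, 0, 0],
   [0, 4, 0, 0, 9, 0, 0, 0, 0, 4, 0, 4, 0, 0, 0, 0, 0, 0, 0, 0, 0],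
   [0, 10, 0, 5, 0, 0, 0, 0, 0, 0, 10, 10, 0, 0, 0, 0, 0, 0, 0, 0, 0],
   [0, 7, 11, 0, 0, 0, 0, 0, 0, 7, 7, 0, 0, 11, 0, 0, 0, 0, 0, 0, 0]]

/-- permutations of five points -/
def pL : List (Equiv.Perm (Fin 5)) :=
  [mkP ![0, 1, 2, 3, 4] ![0, 1, 2, 3, 4],
   mkP ![1, 2, 3, 4, 0] ![4, 0, 1, 2, 3],
   mkP ![4, 3, 0, 2, 1] ![2, 4, 3, 1, 0],
   mkP ![2, 0, 4, 1, 3] ![1, 3, 0, 4, 2],
   mkP ![4, 0, 1, 2, 3] ![1, 2, 3, 4, 0],
   mkP ![3, 2, 0, 4, 1] ![2, 4, 1, 0, 3],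
   mkP ![1, 4, 3, 0, 2] ![3, 0, 4, 2, 1],
   mkP ![1, 3, 0, 4, 2] ![2, 0, 4, 1, 3],
   mkP ![2, 4, 1, 0, 3] ![3, 2, 0, 4, 1],
   mkP ![3, 2, 4, 1, 0] ![4, 3, 1, 0, 2],
   mkP ![2, 4, 3, 1, 0] ![4, 3, 0, 2, 1],
   mkP ![3, 0, 4, 2, 1] ![1, 4, 3, 0, 2],
   mkP ![4, 3, 1, 0, 2] ![3, 2, 4, 1, 0]]

/-! ### formal sums -/

/-- coefficient of a formal sum -/
def coef (l : List (ℕ × ℤ)) (k : ℕ) : ℤ :=
  l.foldr (fun p s => bif p.1 == k then p.2 + s else s) 0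

/-- coefficient of a formal sum of rows -/
def cf2 (l : List (ℕ × ℤ)) (K : ℕ → List (ℕ × ℤ)) (k : ℕ) : ℤ :=
  l.foldr (fun p s => p.2 * coef (K p.1) k + s) 0

/-- adjacency -/
def adb (a b : ℕ) : Bool := (rowT.getD a 0).testBit b

/-- the edge number `i` -/
def el (i : ℕ) : ℕ × ℕ := (eT.getD i 0 % 21, eT.getD i 0 / 21)

/-- the triangle number `i` -/
def tl (i : ℕ) : ℕ × ℕ × ℕ := (keyT.getD i 0 % 21, keyT.getD i 0 / 21 % 21, keyT.getD i 0 / 441)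

/-- decoding -/
def dc (l : List ℕ) : List (ℕ × ℤ) := l.map fun c => (c / 2, bif c % 2 == 0 then 1 else -1)

/-- rows of the boundary maps and of the contraction -/
def R1 (b : ℕ) : List (ℕ × ℤ) := dc (r1T.getD b [])
/-- rows of the boundary maps and of the contraction -/
def R2 (i : ℕ) : List (ℕ × ℤ) := dc (r2T.getD i [])
/-- rows of the boundary maps and of the contraction -/
def K0 (i : ℕ) : List (ℕ × ℤ) := dc (k0T.getD i [])
/-- rows of the boundary maps and of the contraction -/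
def K1 (j : ℕ) : List (ℕ × ℤ) := dc (k1T.getD j [])

/-- the ordered pair `(a,b)` as a signed edge -/
def L2 (a b : ℕ) : List (ℕ × ℤ) :=
  match (ixT.getD a []).getD b 0 with
  | 0 => []
  | i + 1 => [(i, bif Nat.blt a b then 1 else -1)]

/-- index in a list -/
def idx : List ℕ → ℕ → ℕ
  | [], _ => 0
  | x :: l, k => bif x == k then 0 else idx l k + 1

/-- sign of the order of `(a,b,c)` -/
def sg (a b c : ℕ) : ℤ :=
  (bif Nat.blt a b then 1 else -1) * (bif Nat.blt b c then 1 else -1) *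
    (bif Nat.blt a c then 1 else -1)

/-- the ordered triple `(a,b,c)` as a signed triangle -/
def L3 (a b c : ℕ) : List (ℕ × ℤ) :=
  bif adb a b && adb b c && adb a c then
    [(idx keyT (min a (min b c) + 21 * (a + b + c - min a (min b c) - max a (max b c)) +
      441 * max a (max b c)), sg a b c)]
  else []

/-- value of the cocycle -/
def gm (a b : ℕ) : Equiv.Perm (Fin 5) := pL.getD ((gT.getD a []).getD b 0) 1

/-- equality test for permutations -/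
def pe (f g : Equiv.Perm (Fin 5)) : Bool :=
  f 0 == g 0 && f 1 == g 1 && f 2 == g 2 && f 3 == g 3 && f 4 == g 4

/-- the range `0, …, 20` -/
def rg : List ℕ := List.range 21

/-! ### kernel checks -/

/-- basic properties of adjacency -/
def chA : Bool := rg.all fun a => rg.all fun b =>
  (adb a b == adb b a) && (bif a == b then !adb a b else true) &&
    (bif adb a b then !((Nat.blt a 5 && Nat.blt b 5) ||
      (Nat.ble 5 a && Nat.blt a 15 && Nat.ble 5 b && Nat.blt b 15) ||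
      (Nat.ble 15 a && Nat.ble 15 b)) else true)

/-- negative of a formal sum -/
def ng (l : List (ℕ × ℤ)) : List (ℕ × ℤ) := l.map fun p => (p.1, -p.2)

/-- `L2` is correct -/
def chL2 : Bool := rg.all fun a => rg.all fun b =>
  (bif adb a b then
    (match L2 a b with
      | [p] => Nat.blt p.1 80 && ((p.2 == 1 && el p.1 == (a, b)) || (p.2 == -1 && el p.1 == (b, a)))
      | _ => false)
    else L2 a b == []) && L2 a b == ng (L2 b a)

/-- `L3` is correct -/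
def chL3 : Bool := rg.all fun a => rg.all fun b => rg.all fun c =>
  (bif adb a b && adb b c && adb a c then
    (match L3 a b c with
      | [p] => Nat.blt p.1 60 &&
        ((p.2 == 1 && (tl p.1 == (a, b, c) || tl p.1 == (b, c, a) || tl p.1 == (c, a, b))) ||
         (p.2 == -1 && (tl p.1 == (b, a, c) || tl p.1 == (a, c, b) || tl p.1 == (c, b, a))))
      | _ => false) && L3 a b c == ng (L3 b a c) && L3 a b c == ng (L3 a c b)
    else true)

/-- the edges are edges -/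
def chE : Bool := (List.range 80).all fun i =>
  Nat.blt (el i).1 21 && Nat.blt (el i).2 21 && adb (el i).1 (el i).2

/-- the triangles are triangles -/
def chT : Bool := (List.range 60).all fun i =>
  Nat.blt (tl i).1 21 && Nat.blt (tl i).2.1 21 && Nat.blt (tl i).2.2 21

/-- the tables of the boundary maps are correct -/
def chR : Bool :=
  (rg.all fun b => R1 b == rg.flatMap fun a => L2 a b) &&
  ((List.range 80).all fun i => R2 i == rg.flatMap fun a => L3 a (el i).1 (el i).2)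

/-- bounds -/
def chB : Bool :=
  (rg.all fun b => (R1 b).all fun p => Nat.blt p.1 80) &&
  ((List.range 80).all fun i => ((R2 i).all fun p => Nat.blt p.1 60) &&
    (K0 i).all fun p => Nat.blt p.1 21) &&
  ((List.range 60).all fun j => (K1 j).all fun p => Nat.blt p.1 80)

/-- `∂₁ h₀ = 1 - ε` -/
def ch0 : Bool := rg.all fun b => rg.all fun k =>
  cf2 (R1 b) K0 k == (bif b == k then 1 else 0) - (bif b == 0 then 1 else 0)

/-- `∂₂ h₁ + h₀ ∂₁ = 1` -/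
def ch1 : Bool := (List.range 80).all fun i => (List.range 80).all fun k =>
  cf2 (R2 i) K1 k + cf2 (K0 i) R1 k == (bif i == k then 1 else 0)

/-- `h₁ ∂₂ = 1` -/
def ch2 : Bool := (List.range 60).all fun j => (List.range 60).all fun k =>
  cf2 (K1 j) R2 k == (bif j == k then 1 else 0)

/-- paths to `0` -/
def chP : Bool := rg.all fun a =>
  let b := p1T.getD a 0
  let c := p2T.getD a 0
  Nat.blt b 21 && Nat.blt c 21 && (a == b || adb a b) && (b == c || adb b c) &&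
    (c == 0 || adb c 0)

/-- the cocycle condition -/
def chG : Bool := rg.all fun a => rg.all fun b => bif a == b || adb a b then
  rg.all fun c => bif (b == c || adb b c) && (a == c || adb a c) then
    pe (gm a b * gm b c) (gm a c) else true
  else true

theorem chA_eq : chA = true := by decide +kernel
theorem chL2_eq : chL2 = true := by decide +kernel
theorem chL3_eq : chL3 = true := by decide +kernel
theorem chE_eq : chE = true := by decide +kernel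
theorem chT_eq : chT = true := by decide +kernel
theorem chR_eq : chR = true := by decide +kernel
theorem chB_eq : chB = true := by decide +kernel
theorem ch0_eq : ch0 = true := by decide +kernel
theorem ch1_eq : ch1 = true := by decide +kernel
theorem ch2_eq : ch2 = true := by decide +kernel
theorem chP_eq : chP = true := by decide +kernel
theorem chG_eq : chG = true := by decide +kernel

end Pool.Agent.Y369.HC
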